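import Pool.Agent.Y734.R.Stms

/-!
# Job REL of project Y734/R (helper123)

Norms of the differences satisfy the universal equations.
-/

set_option autoImplicit false

namespace Pool.Agent.Y734.R.REL

open Pool.Agent.Y734.M Pool.Agent.Y734.R

/-- the polynomials behind `uw` -/
noncomputable def W (r m : ℕ) (κ : Fin m × Fin m) : MvPolynomial (Fin r × Fin m) ℚ :=
  if κ.1 = κ.2 then 1 else ∏ s : Fin r, (MvPolynomial.X (s, κ.1) - MvPolynomial.X (s, κ.2))

theorem uw_eq (r m : ℕ) (κ : Fin m × Fin m) :
    uw r m κ = algebraMap (MvPolynomial (Fin r × Fin m) ℚ) (UF r m) (W r m κ) := by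
  unfold uw W
  split_ifs with h
  · simp
  · simp only [map_prod, map_sub, ux]

theorem rel : RelStmt := by
  intro k L _ _ _ _ _ r m hr x G hG
  haveI h1 : IsScalarTower ℚ k L :=
    IsScalarTower.of_algebraMap_eq' (RingHom.ext_rat _ _)
  haveI h2 : FiniteDimensional k L := Module.Finite.of_restrictScalars_finite ℚ k L
  haveI h3 : IsScalarTower ℚ k (AlgebraicClosure k) :=
    IsScalarTower.of_algebraMap_eq' (RingHom.ext_rat _ _)
  have hc : Fintype.card (L →ₐ[k] AlgebraicClosure k) = r := by
    rw [AlgHom.card, hr]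
  let e : Fin r ≃ (L →ₐ[k] AlgebraicClosure k) := (Fintype.equivFinOfCardEq hc).symm
  let ψ : MvPolynomial (Fin r × Fin m) ℚ →ₐ[ℚ] AlgebraicClosure k :=
    MvPolynomial.aeval (fun p : Fin r × Fin m => e p.1 (x p.2))
  have hW : MvPolynomial.aeval (W r m) G = 0 := by
    have h4 : MvPolynomial.aeval (uw r m) G
        = algebraMap (MvPolynomial (Fin r × Fin m) ℚ) (UF r m)
          (MvPolynomial.aeval (W r m) G) := by
      rw [← MvPolynomial.aeval_algebraMap_apply]
      congr 2
      funext κ
      exact uw_eq r m κ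
    rw [h4] at hG
    exact (IsFractionRing.injective (MvPolynomial (Fin r × Fin m) ℚ) (UF r m))
      (by rw [hG, map_zero])
  have hψ : ∀ κ, ψ (W r m κ) = algebraMap k (AlgebraicClosure k) (nd k x κ) := by
    intro κ
    unfold W nd
    split_ifs with h
    · simp
    · rw [Algebra.norm_eq_prod_embeddings k (AlgebraicClosure k), map_prod, ← e.prod_comp]
      refine Finset.prod_congr rfl fun s _ => ?_
      simp [ψ]
  have h5 : algebraMap k (AlgebraicClosure k) (MvPolynomial.aeval (nd k x) G) = 0 := by
    rw [← MvPolynomial.aeval_algebraMap_apply]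
    have h6 : (algebraMap k (AlgebraicClosure k)) ∘ (nd k x) = fun κ => ψ (W r m κ) := by
      funext κ
      exact (hψ κ).symm
    rw [h6]
    have h7 : MvPolynomial.aeval (fun κ => ψ (W r m κ)) G = ψ (MvPolynomial.aeval (W r m) G) := by
      rw [← MvPolynomial.comp_aeval_apply]
    rw [h7, hW, map_zero]
  exact (algebraMap k (AlgebraicClosure k)).injective (by rw [h5, map_zero])

end Pool.Agent.Y734.R.REL
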